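import Pool.Agent.helper58.CRO.SpecB

/-!
# MP_5bf3c3_gt, row cro:APB

The a priori bound on the volume of small balls.
-/

open scoped Manifold ContDiff Topology ENNReal
open MeasureTheory Set

noncomputable section

namespace Pool.Agent.CRO

lemma APB_kap_pos (n : ℕ) : 0 < kap n := by
  unfold kap
  exact ENNReal.toReal_pos (Metric.measure_ball_pos volume (0 : En n) one_pos).ne'
    measure_ball_lt_top.ne

/-- Step 1. -/
lemma APB_step (h1 : GFL_stmt) (h2 : SPD_stmt) (h3 : VOL_stmt) (h5 : LEV_stmt)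
    (n : ℕ) (r0 L : ℝ) (𝒢 : NChart n r0) (hn : 1 ≤ n) (hE : HasExp 𝒢 L) (ρ : ℝ)
    (hρ : 0 < ρ) (hρr : ρ < r0) (hρL : ρ < L) :
    (ρ / Real.pi) ^ n * (kap n * VV 𝒢 (ρ / 2)) ≤ VV 𝒢 ρ ^ 2 := by
  obtain ⟨k, hk, hkr, hkL⟩ : ∃ k : ℝ, 0 < k ∧ ρ + k < r0 ∧ ρ + k < L := by
    refine ⟨(min r0 L - ρ) / 2, ?_, ?_, ?_⟩
    · have := lt_min hρr hρL
      linarith
    · have := min_le_left r0 L
      have := lt_min hρr hρL
      linarith
    · have := min_le_right r0 L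
      have := lt_min hρr hρL
      linarith
  obtain ⟨H, Φ, hΦ⟩ := h1 n r0 (ρ + k) 𝒢 (by linarith) hkr
  obtain ⟨hm, hv⟩ := h3 n r0 𝒢 (ρ / 2) hn (by linarith)
  have hmain := h5 n r0 (ρ + k) L 𝒢 H Φ hn hΦ hE (ZZ 𝒢 (ρ / 2)) (ρ / 2) k (VV 𝒢 ρ)
    (fun _ => 1) (fun _ => ρ) hm (by linarith) hk (by linarith)
    (fun z hz => ⟨hz.2, fun u hu => by
      have hu' : |u| ≤ ρ / 2 + k := abs_le.2 ⟨by linarith [hu.1], by linarith [hu.2]⟩
      have := (h2 n r0 (ρ + k) 𝒢 H Φ hΦ z (ρ / 2) u hz (by linarith)).1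
      linarith⟩)
    (fun u hu => ⟨hρr, fun z hz => by
      have hu' : |u| ≤ ρ / 2 := abs_le.2 ⟨by linarith [hu.1], by linarith [hu.2]⟩
      have := (h2 n r0 (ρ + k) 𝒢 H Φ hΦ z (ρ / 2) u hz (by linarith)).1
      show ‖(Φ u z).1‖ < ρ
      linarith⟩)
    continuous_const (fun _ => one_pos) (fun _ => rfl)
    (fun u _ => by simp)
  have hint : (∫ _ in (-(ρ / 2))..(ρ / 2), (1 : ℝ)) = ρ := by
    rw [intervalIntegral.integral_const]
    simp
  rw [hint, hv, ← ENNReal.ofReal_mul (by positivity)] at hmain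
  exact (ENNReal.ofReal_le_ofReal_iff (sq_nonneg _)).1 hmain

theorem APB (h1 : GFL_stmt) (h2 : SPD_stmt) (h3 : VOL_stmt) (h4 : VVP_stmt) (h5 : LEV_stmt) :
    APB_stmt := by
  intro n r0 L 𝒢 hn hE ρ hρ hρr hρL
  by_contra hcon
  push_neg at hcon
  have hkap := APB_kap_pos n
  have hpi := Real.pi_pos
  obtain ⟨hpos, -, ρ1, hρ1, hρ1r, hlow⟩ := h4 n r0 𝒢 hn (hρ.trans hρr)
  have hind : ∀ i : ℕ, VV 𝒢 (ρ / 2 ^ i) < kap n * (ρ / 2 ^ i / (2 * Real.pi)) ^ n := by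
    intro i
    induction i with
    | zero => simpa using hcon
    | succ i ih =>
      set s : ℝ := ρ / 2 ^ i with hs
      have hs0 : 0 < s := by positivity
      have hsρ : s ≤ ρ := div_le_self hρ.le (one_le_pow₀ (by norm_num))
      have hstep := APB_step h1 h2 h3 h5 n r0 L 𝒢 hn hE s hs0 (by linarith) (by linarith)
      have hVs : 0 < VV 𝒢 s := hpos s hs0 (by linarith)
      have hsucc : ρ / 2 ^ (i + 1) = s / 2 := by
        rw [hs, pow_succ]
        field_simp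
      rw [hsucc]
      have hsq : VV 𝒢 s ^ 2 < (kap n * (s / (2 * Real.pi)) ^ n) ^ 2 := by
        exact pow_lt_pow_left₀ ih hVs.le (by norm_num)
      have hfac : (kap n * (s / (2 * Real.pi)) ^ n) ^ 2 =
          (s / Real.pi) ^ n * (kap n * (kap n * (s / 2 / (2 * Real.pi)) ^ n)) := by
        have e1 : (s / (2 * Real.pi)) ^ n * (s / (2 * Real.pi)) ^ n =
            (s / Real.pi) ^ n * (s / 2 / (2 * Real.pi)) ^ n := by
          rw [← mul_pow, ← mul_pow]
          congr 1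
          field_simp
        calc (kap n * (s / (2 * Real.pi)) ^ n) ^ 2
            = kap n * kap n * ((s / (2 * Real.pi)) ^ n * (s / (2 * Real.pi)) ^ n) := by ring
          _ = kap n * kap n * ((s / Real.pi) ^ n * (s / 2 / (2 * Real.pi)) ^ n) := by rw [e1]
          _ = _ := by ring
      rw [hfac] at hsq
      have h6 := lt_of_le_of_lt hstep hsq
      have h7 : kap n * VV 𝒢 (s / 2) < kap n * (kap n * (s / 2 / (2 * Real.pi)) ^ n) :=
        lt_of_mul_lt_mul_left h6 (by positivity)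
      exact lt_of_mul_lt_mul_left h7 hkap.le
  obtain ⟨i, hi⟩ : ∃ i : ℕ, ρ / 2 ^ i ≤ ρ1 := by
    obtain ⟨i, hi⟩ := pow_unbounded_of_one_lt (ρ / ρ1) (one_lt_two : (1 : ℝ) < 2)
    refine ⟨i, ?_⟩
    rw [div_le_iff₀ (by positivity)]
    rw [div_lt_iff₀ hρ1] at hi
    linarith
  set s : ℝ := ρ / 2 ^ i with hs
  have hs0 : 0 < s := by positivity
  have ha := hlow s hs0 hi
  have hb := hind i
  have hc : kap n * (s / (2 * Real.pi)) ^ n ≤ kap n / 2 * s ^ n := by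
    rw [div_pow]
    have h2pi : (2 : ℝ) ≤ (2 * Real.pi) ^ n := by
      have h8 : (2 * Real.pi) ^ 1 ≤ (2 * Real.pi) ^ n :=
        pow_le_pow_right₀ (by linarith [Real.pi_gt_three]) hn
      linarith [Real.pi_gt_three]
    have hpn : 0 < s ^ n := by positivity
    have : s ^ n / (2 * Real.pi) ^ n ≤ s ^ n / 2 := by
      gcongr
    calc kap n * (s ^ n / (2 * Real.pi) ^ n) ≤ kap n * (s ^ n / 2) := by gcongr
      _ = kap n / 2 * s ^ n := by ring
  linarith

end Pool.Agent.CRO
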