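import Pool.Agent.helper58.CRO.SpecC

set_option autoImplicit false

namespace Pool.Agent.CRO

theorem FI1_scalar (x y : ℝ) (_hx : 0 ≤ x) (hxy : x ≤ y) (hy : y < 1) :
    Real.sqrt (1 - x ^ 2) ≤ Real.sqrt (1 - y ^ 2) + (y - x) * y / Real.sqrt (1 - y ^ 2) := by
  have hy0 : 0 ≤ y := by linarith
  have h1 : 0 < 1 - y ^ 2 := by nlinarith
  have hs : 0 < Real.sqrt (1 - y ^ 2) := Real.sqrt_pos.2 h1
  have hs2 : Real.sqrt (1 - y ^ 2) ^ 2 = 1 - y ^ 2 := Real.sq_sqrt h1.le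
  have e1 : Real.sqrt (1 - y ^ 2) + (y - x) * y / Real.sqrt (1 - y ^ 2)
      = (1 - x * y) / Real.sqrt (1 - y ^ 2) := by
    rw [eq_div_iff hs.ne', add_mul, div_mul_cancel₀ _ hs.ne', ← pow_two, hs2]
    ring
  rw [e1]
  have h2 : 0 ≤ (1 - x * y) / Real.sqrt (1 - y ^ 2) := by
    apply div_nonneg _ hs.le
    nlinarith
  apply Real.sqrt_le_iff.2 ⟨h2, ?_⟩
  rw [div_pow, hs2, le_div_iff₀ h1]
  nlinarith [sq_nonneg (x - y)]

theorem FI1 : FI1_stmt := by
  intro N k h d lam hh hd hd1 hkN hk0 hk1 hj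
  have hset : Finset.Ioc k N = insert (k + 1) (Finset.Ioc (k + 1) N) := by
    ext j
    simp only [Finset.mem_Ioc, Finset.mem_insert]
    omega
  have hnot : k + 1 ∉ Finset.Ioc (k + 1) N := by simp
  unfold WW PH
  rw [hset, Finset.sum_insert hnot, Finset.mul_sum, add_sub_assoc, ← Finset.sum_sub_distrib]
  apply add_le_add_right
  apply Finset.sum_le_sum
  intro j hjm
  rw [Finset.mem_Ioc] at hjm
  obtain ⟨hl, hl1⟩ := hj j (by omega) hjm.2
  have hk1' : 0 ≤ lam (k + 1) := hk0.trans hk1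
  have hy1 : (1 - d) * lam (k + 1) / lam j < 1 := by
    rw [div_lt_one hl]
    nlinarith
  have hxy : (1 - d) * lam k / lam j ≤ (1 - d) * lam (k + 1) / lam j := by
    apply div_le_div_of_nonneg_right _ hl.le
    apply mul_le_mul_of_nonneg_left hk1 (by linarith)
  have hx0 : 0 ≤ (1 - d) * lam k / lam j :=
    div_nonneg (mul_nonneg (by linarith) hk0) hl.le
  have h1 := FI1_scalar _ _ hx0 hxy hy1
  have h2 : h * Real.sqrt (1 - ((1 - d) * lam k / lam j) ^ 2) -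
      h * Real.sqrt (1 - ((1 - d) * lam (k + 1) / lam j) ^ 2)
      ≤ h * (((1 - d) * lam (k + 1) / lam j - (1 - d) * lam k / lam j) *
        ((1 - d) * lam (k + 1) / lam j) /
        Real.sqrt (1 - ((1 - d) * lam (k + 1) / lam j) ^ 2)) := by
    rw [← mul_sub]
    apply mul_le_mul_of_nonneg_left _ hh
    linarith
  refine h2.trans (le_of_eq ?_)
  generalize Real.sqrt (1 - ((1 - d) * lam (k + 1) / lam j) ^ 2) = s
  by_cases hs : s = 0
  · rw [hs]; simp
  · field_simp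

end Pool.Agent.CRO
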